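import Pool.Agent.Y203.PCA.Net

set_option autoImplicit false

open MeasureTheory ProbabilityTheory Filter Topology
open scoped ENNReal

/-!
# Probabilistic cellular automata over a group
-/

namespace Pool.Agent.Y203.PCA

/-- A probabilistic cellular automaton over a group `G` (written additively, commutativity is not
assumed) with alphabet `S`: a finite neighbourhood and a local rule, which assigns to each pattern
on the neighbourhood a probability law on the alphabet.  For `G = ℤ^d` and finite `S` this is the
usual notion (the measurability of the rule is then automatic). -/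
structure GPCA (G S : Type) [AddGroup G] [MeasurableSpace S] where
  nbhd : Finset G
  rule : (nbhd → S) → Measure S
  prob : ∀ p, IsProbabilityMeasure (rule p)
  meas : Measurable rule

/-- The shift `σ^k`, `(σ^k x)_i = x_{k+i}`. -/
def shift {G S : Type} [AddGroup G] (k : G) (x : G → S) : G → S := fun i => x (k + i)

/-- The cylinder `[u]` of all configurations that agree with `u` on the finite set `A`. -/
def cyl {G S : Type} (A : Finset G) (u : A → S) : Set (G → S) := {x | ∀ a : A, x a = u a}

/-- Uniform decorrelation (short range correlations): the covariance of a local event `E` with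
*every* event on the sites outside a suitable finite set `Λ` is smaller than `ε`. -/
def UniformDecorrelation {V S : Type} [MeasurableSpace S] (π : Measure (V → S)) : Prop :=
  ∀ A : Set V, A.Finite → ∀ E : Set (V → S), MeasurableSet[ev V S A] E → ∀ ε : ℝ, 0 < ε →
    ∃ Λ : Set V, Λ.Finite ∧ ∀ F : Set (V → S), MeasurableSet[ev V S Λᶜ] F →
      |(π (E ∩ F)).toReal - (π E).toReal * (π F).toReal| < ε

/-- Every event which, for each finite set `Λ`, depends only on the sites outside `Λ`, has
probability `0` or `1`. -/
def TailTrivial {V S : Type} [MeasurableSpace S] (π : Measure (V → S)) : Prop :=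
  ∀ F : Set (V → S), (∀ Λ : Set V, Λ.Finite → MeasurableSet[ev V S Λᶜ] F) → π F = 0 ∨ π F = 1

/-- Mixing of all orders under the shifts, for all local events. -/
def MixingOfAllOrders {G S : Type} [AddGroup G] [MeasurableSpace S] (π : Measure (G → S)) : Prop :=
  ∀ (m : ℕ) (A : Fin m → Set G) (E : Fin m → Set (G → S)), (∀ i, (A i).Finite) →
    (∀ i, MeasurableSet[ev G S (A i)] (E i)) → ∀ ε : ℝ, 0 < ε → ∃ K : Set G, K.Finite ∧
      ∀ k : Fin m → G, (∀ i j, i ≠ j → -k i + k j ∉ K) →
        |(π (⋂ i, shift (k i) ⁻¹' E i)).toReal - ∏ i, (π (E i)).toReal| < ε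

section Shift

variable {G S : Type} [AddGroup G] [MeasurableSpace S]

omit [MeasurableSpace S] in
theorem shift_shift (a b : G) (x : G → S) : shift a (shift b x) = shift (b + a) x := by
  funext i
  simp [shift, add_assoc]

theorem measurable_shift_ev (k : G) {A B : Set G} (h : ∀ a ∈ A, k + a ∈ B) :
    @Measurable _ _ (ev G S B) (ev G S A) (shift (S := S) k) := by
  rw [measurable_cylinderEvents_iff]
  intro i hi
  exact measurable_cylinderEvent_apply (h i hi)

theorem measurable_shift (k : G) : Measurable (shift (S := S) k) := by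
  unfold shift
  fun_prop

theorem measure_shift {π : Measure (G → S)} (hs : ∀ k : G, π.map (shift k) = π) (k : G)
    {E : Set (G → S)} (hE : MeasurableSet E) : π (shift k ⁻¹' E) = π E := by
  conv_rhs => rw [← hs k]
  rw [Measure.map_apply (measurable_shift k) hE]

/-- Shift invariance and uniform decorrelation imply mixing of all orders. -/
theorem mixing_of_decorrelation {π : Measure (G → S)} [IsProbabilityMeasure π]
    (hs : ∀ k : G, π.map (shift k) = π) (hu : UniformDecorrelation π) : MixingOfAllOrders π := by
  intro m A E hA hE ε hε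
  have hε' : 0 < ε / (m + 1) := by positivity
  choose Λ hΛ hdec using fun i => hu (A i) (hA i) (E i) (hE i) (ε / (m + 1)) hε'
  refine ⟨⋃ i, ⋃ j, ⋃ a ∈ A j, {g | g + a ∈ Λ i}, ?_, ?_⟩
  · refine Set.finite_iUnion fun i => Set.finite_iUnion fun j => (hA j).biUnion fun a _ => ?_
    have : {g | g + a ∈ Λ i} = (fun g => g + a) ⁻¹' Λ i := rfl
    rw [this]
    exact (hΛ i).preimage ((add_left_injective a).injOn)
  · intro k hk
    have hEm : ∀ i, MeasurableSet (E i) := fun i => ev_le' (A i) _ (hE i)
    have hp : ∀ i, 0 ≤ (π (E i)).toReal ∧ (π (E i)).toReal ≤ 1 := by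
      intro i
      refine ⟨ENNReal.toReal_nonneg, ?_⟩
      have := ENNReal.toReal_mono ENNReal.one_ne_top (prob_le_one (μ := π) (s := E i))
      simpa using this
    have key : ∀ s : Finset (Fin m), |(π (⋂ i ∈ s, shift (k i) ⁻¹' E i)).toReal -
        ∏ i ∈ s, (π (E i)).toReal| ≤ s.card * (ε / (m + 1)) := by
      intro s
      induction s using Finset.induction_on with
      | empty => simp
      | insert i s hi ih =>
        set F : Set (G → S) := ⋂ j ∈ s, shift (-k i + k j) ⁻¹' E j with hF
        have hFev : MeasurableSet[ev G S (Λ i)ᶜ] F := by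
          refine @MeasurableSet.biInter _ _ (ev G S (Λ i)ᶜ) _ _ s.countable_toSet fun j hj => ?_
          have hij : i ≠ j := fun h => hi (h ▸ hj)
          refine measurable_shift_ev (-k i + k j) (A := A j) ?_ (hE j)
          intro a ha hcon
          exact hk i j hij (Set.mem_iUnion.2 ⟨i, Set.mem_iUnion.2 ⟨j,
            Set.mem_iUnion₂.2 ⟨a, ha, hcon⟩⟩⟩)
        have hFm : MeasurableSet F := ev_le' _ _ hFev
        have e1 : (⋂ j ∈ s, shift (k j) ⁻¹' E j) = shift (k i) ⁻¹' F := by
          ext x
          simp only [hF, Set.mem_iInter, Set.mem_preimage, shift_shift, add_neg_cancel_left]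
        have e2 : (⋂ j ∈ insert i s, shift (k j) ⁻¹' E j) = shift (k i) ⁻¹' (E i ∩ F) := by
          rw [Finset.set_biInter_insert, e1]
          rfl
        rw [e2, measure_shift hs (k i) ((hEm i).inter hFm), Finset.prod_insert hi,
          Finset.card_insert_of_notMem hi]
        rw [e1, measure_shift hs (k i) hFm] at ih
        have h1 := (hdec i F hFev).le
        have e3 : (π (E i ∩ F)).toReal - (π (E i)).toReal * ∏ j ∈ s, (π (E j)).toReal =
            ((π (E i ∩ F)).toReal - (π (E i)).toReal * (π F).toReal) +
            (π (E i)).toReal * ((π F).toReal - ∏ j ∈ s, (π (E j)).toReal) := by ring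
        rw [e3]
        refine (abs_add_le _ _).trans ?_
        rw [abs_mul, abs_of_nonneg (hp i).1]
        have h2 : (π (E i)).toReal * |(π F).toReal - ∏ j ∈ s, (π (E j)).toReal| ≤
            |(π F).toReal - ∏ j ∈ s, (π (E j)).toReal| :=
          mul_le_of_le_one_left (abs_nonneg _) (hp i).2
        push_cast
        linarith
    have h1 := key Finset.univ
    simp only [Finset.mem_univ, Set.iInter_true, Finset.card_univ, Fintype.card_fin] at h1
    refine h1.trans_lt ?_
    rw [← mul_div_assoc, div_lt_iff₀ (by positivity)]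
    nlinarith

end Shift

theorem measurable_pi_of {α N S : Type} {m : MeasurableSpace α} [MeasurableSpace S]
    {f : α → N → S} (h : ∀ n, Measurable[m] (fun a => f a n)) : Measurable[m] f :=
  measurable_pi_lambda f h

namespace GPCA

variable {G S : Type} [AddGroup G] [MeasurableSpace S] (Φ : GPCA G S)

open Classical in
/-- A cellular automaton over a group as a network. -/
noncomputable def net : Net G S where
  nb g := Φ.nbhd.image (fun n => g + n)
  law g x := Φ.rule (fun n => x (g + n))
  prob _ _ := Φ.prob _
  meas g := by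
    refine Φ.meas.comp ?_
    refine measurable_pi_of fun n => ?_
    refine measurable_cylinderEvent_apply ?_
    exact Finset.mem_coe.2 (Finset.mem_image.2 ⟨n, n.2, rfl⟩)
  fin w := by
    have : {v | w ∈ Φ.nbhd.image (fun n => v + n)} ⊆
        ((Φ.nbhd.image (fun n => w - n) : Finset G) : Set G) := by
      intro v hv
      obtain ⟨n, hn, rfl⟩ := Finset.mem_image.1 hv
      exact Finset.mem_coe.2 (Finset.mem_image.2 ⟨n, hn, by simp⟩)
    exact (Finset.finite_toSet _).subset this

open Classical in
theorem mem_nb {v w : G} : w ∈ Φ.net.nb v ↔ ∃ n ∈ Φ.nbhd, v + n = w := Finset.mem_image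

/-- `Φ` is ergodic with unique invariant probability measure `π`: `π` is the only invariant
probability measure, and `μ Φ^t → π` weakly for every initial probability measure `μ`. -/
structure ErgodicWith [TopologicalSpace S] (Φ : GPCA G S) (π : Measure (G → S)) : Prop where
  prob : IsProbabilityMeasure π
  invariant : Φ.net.evolve π = π
  unique : ∀ ν : Measure (G → S), IsProbabilityMeasure ν → Φ.net.evolve ν = ν → ν = π
  converges : ∀ μ : Measure (G → S), IsProbabilityMeasure μ →
    ∀ f : (G → S) → ℝ, Continuous f →
      Tendsto (fun t : ℕ => ∫ x, f x ∂(Φ.net.evolve^[t] μ)) atTop (𝓝 (∫ x, f x ∂π))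

theorem step_shift (k : G) (x : G → S) : Φ.net.step (shift k x) = (Φ.net.step x).map (shift k) := by
  have h := Measure.map_infinitePi_infinitePi_of_inj (P := fun g : G => Φ.net.law g x)
    (f := fun i : G => k + i) (add_right_injective k)
  have e : (fun g : G => Φ.net.law g (shift k x)) = fun g => Φ.net.law (k + g) x := by
    funext g
    show Φ.rule (fun n => x (k + (g + n))) = Φ.rule (fun n => x (k + g + n))
    simp only [add_assoc]
  unfold Net.step
  rw [e]
  exact h.symm

theorem evolve_shift (k : G) (μ : Measure (G → S)) :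
    Φ.net.evolve (μ.map (shift k)) = (Φ.net.evolve μ).map (shift k) := by
  ext E hE
  have hms : Measurable fun x => Φ.net.step x E :=
    (Measure.measurable_coe hE).comp Φ.net.measurable_step
  unfold Net.evolve
  rw [Measure.bind_apply hE Φ.net.measurable_step.aemeasurable,
    Measure.map_apply (measurable_shift k) hE,
    Measure.bind_apply ((measurable_shift k) hE) Φ.net.measurable_step.aemeasurable,
    lintegral_map hms (measurable_shift k)]
  apply lintegral_congr
  intro x
  rw [step_shift, Measure.map_apply (measurable_shift k) hE]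

variable {Φ} {π : Measure (G → S)}

theorem shift_invariant [TopologicalSpace S] (h : Φ.ErgodicWith π) (k : G) :
    π.map (shift k) = π := by
  have := h.prob
  apply h.unique
  · exact Measure.isProbabilityMeasure_map (measurable_shift k).aemeasurable
  · rw [evolve_shift, h.invariant]

end GPCA

/-! ### Local events for finite alphabets -/

section Local

variable {V S : Type} [MeasurableSpace S]

theorem exists_of_ev {A : Set V} {E : Set (V → S)} (hE : MeasurableSet[ev V S A] E) :
    ∃ E' : Set (A → S), E = (fun (x : V → S) (a : A) => x a) ⁻¹' E' := by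
  have hle : ev V S A ≤ (MeasurableSpace.pi : MeasurableSpace (A → S)).comap
      (fun (x : V → S) (a : A) => x a) := by
    refine iSup₂_le fun i hi => ?_
    have : (fun σ : V → S => σ i) = (fun z : A → S => z ⟨i, hi⟩) ∘
        (fun (x : V → S) (a : A) => x a) := rfl
    rw [this, ← MeasurableSpace.comap_comp]
    exact MeasurableSpace.comap_mono (measurable_pi_apply _).comap_le
  obtain ⟨E', -, h⟩ := hle _ hE
  exact ⟨E', h.symm⟩

theorem cyl_ev [MeasurableSingletonClass S] (A : Finset V) (u : A → S) :
    MeasurableSet[ev V S (A : Set V)] (cyl A u) := by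
  have : cyl A u = ⋂ a : A, (fun x : V → S => x a) ⁻¹' {u a} := by
    ext x; simp [cyl]
  rw [this]
  refine @MeasurableSet.iInter _ _ (ev V S (A : Set V)) _ _ fun a => ?_
  exact measurable_cylinderEvent_apply a.2 (MeasurableSet.singleton (u a))

variable [Finite S] [TopologicalSpace S] [DiscreteTopology S]

theorem isClopen_of_ev {A : Set V} (hA : A.Finite) {E : Set (V → S)}
    (hE : MeasurableSet[ev V S A] E) : IsClopen E := by
  obtain ⟨E', rfl⟩ := exists_of_ev hE
  have : Finite A := hA
  have hc : Continuous (fun (x : V → S) (a : A) => x a) := by fun_prop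
  exact (isClopen_discrete E').preimage hc

end Local

namespace GPCA

variable {G S : Type} [AddGroup G] [MeasurableSpace S] [Finite S] [TopologicalSpace S]
  [DiscreteTopology S] {Φ : GPCA G S} {π : Measure (G → S)}

theorem trans_tendsto (h : Φ.ErgodicWith π) {A : Set G} (hA : A.Finite) {E : Set (G → S)}
    (hE : MeasurableSet[ev G S A] E) (x : G → S) :
    Tendsto (fun t => Φ.net.trans t x E) atTop (𝓝 (π E).toReal) := by
  have hEm : MeasurableSet E := ev_le' A _ hE
  have hc : Continuous (E.indicator fun _ => (1 : ℝ)) :=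
    (continuous_const).indicator (by
      intro a ha
      rw [(isClopen_of_ev hA hE).frontier_eq] at ha
      exact absurd ha (Set.notMem_empty a))
  have h1 := h.converges (Measure.dirac x) inferInstance _ hc
  have e : ∀ ν : Measure (G → S), ∫ y, E.indicator (fun _ => (1 : ℝ)) y ∂ν = (ν E).toReal := by
    intro ν
    rw [integral_indicator hEm, integral_const]
    simp [Measure.real]
  simp only [e] at h1
  exact h1

theorem settles (h : Φ.ErgodicWith π) : Net.Settles Φ.net π := by
  have := h.prob
  exact Net.settles_of_ae fun A hA E hE => Eventually.of_forall (trans_tendsto h hA hE)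

end GPCA

/-! ### Two-fold mixing along the group, and the quantitative form -/

section Two

variable {G S : Type} [AddGroup G] [MeasurableSpace S]

theorem mixing_two {π : Measure (G → S)} [IsProbabilityMeasure π]
    (hs : ∀ k : G, π.map (shift k) = π) (hu : UniformDecorrelation π) {A B : Set G}
    (hA : A.Finite) (hB : B.Finite) {E F : Set (G → S)} (hE : MeasurableSet[ev G S A] E)
    (hF : MeasurableSet[ev G S B] F) :
    Tendsto (fun k : G => π (E ∩ shift k ⁻¹' F)) cofinite (𝓝 (π E * π F)) := by
  rw [← ENNReal.tendsto_toReal_iff (fun k => measure_ne_top _ _)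
    (ENNReal.mul_ne_top (measure_ne_top _ _) (measure_ne_top _ _)), Metric.tendsto_nhds]
  intro ε hε
  obtain ⟨Λ, hΛ, hdec⟩ := hu A hA E hE ε hε
  have hK : (⋃ b ∈ B, {g : G | g + b ∈ Λ}).Finite := by
    refine hB.biUnion fun b _ => ?_
    have : {g | g + b ∈ Λ} = (fun g => g + b) ⁻¹' Λ := rfl
    rw [this]
    exact hΛ.preimage ((add_left_injective b).injOn)
  have hcof : ∀ᶠ k : G in cofinite, k ∉ ⋃ b ∈ B, {g : G | g + b ∈ Λ} := by
    rw [eventually_cofinite]
    refine hK.subset fun k hk => ?_
    by_contra hcon
    exact hk hcon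
  filter_upwards [hcof] with k hk
  have h1 : MeasurableSet[ev G S Λᶜ] (shift k ⁻¹' F) := by
    refine measurable_shift_ev k (A := B) ?_ hF
    intro b hb hcon
    exact hk (Set.mem_iUnion₂.2 ⟨b, hb, hcon⟩)
  have h2 := hdec _ h1
  rw [measure_shift hs k (ev_le' B _ hF)] at h2
  rw [Real.dist_eq, ENNReal.toReal_mul]
  exact h2

end Two

section Norm

variable {G S : Type} [SeminormedAddGroup G] [MeasurableSpace S]

theorem reach_norm (Φ : GPCA G S) {r : ℝ} (hr : ∀ n ∈ Φ.nbhd, ‖n‖ ≤ r) (s : ℕ) {A : Set G} {x : G}
    (hx : x ∈ Φ.net.reach^[s] A) : ∃ a ∈ A, ‖-a + x‖ ≤ s * r := by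
  induction s generalizing A with
  | zero => exact ⟨x, hx, by simp⟩
  | succ s ih =>
    obtain ⟨w, ⟨v, hv, hwv⟩, hw⟩ := ih (A := Φ.net.reach A) hx
    obtain ⟨n, hn, rfl⟩ := Φ.mem_nb.1 hwv
    refine ⟨v, hv, ?_⟩
    have e : -v + x = n + (-(v + n) + x) := by
      rw [neg_add_rev, add_assoc, add_neg_cancel_left]
    rw [e]
    refine (norm_add_le _ _).trans ?_
    push_cast
    have := hr n hn
    linarith

theorem cones_disjoint (Φ : GPCA G S) {r : ℝ} (hr0 : 0 ≤ r) (hr : ∀ n ∈ Φ.nbhd, ‖n‖ ≤ r) {t : ℕ}
    {A B : Set G} (h : ∀ a ∈ A, ∀ b ∈ B, 2 * r * t < ‖-a + b‖) (s : ℕ) (hs : s < t) :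
    Disjoint (Φ.net.reach^[s] A) (Φ.net.reach^[s] B) := by
  rw [Set.disjoint_left]
  intro x hA hB
  obtain ⟨a, ha, hax⟩ := reach_norm Φ hr s hA
  obtain ⟨b, hb, hbx⟩ := reach_norm Φ hr s hB
  have h1 := h a ha b hb
  have e : -a + b = (-a + x) + -(-b + x) := by
    rw [neg_add_rev, neg_neg, add_assoc, add_neg_cancel_left]
  have h2 : ‖-a + b‖ ≤ ‖-a + x‖ + ‖-b + x‖ := by
    rw [e]
    refine (norm_add_le _ _).trans ?_
    rw [norm_neg]
  have h3 : (s : ℝ) * r ≤ t * r := by
    apply mul_le_mul_of_nonneg_right _ hr0
    exact_mod_cast hs.le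
  nlinarith

end Norm

end Pool.Agent.Y203.PCA
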