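import Mathlib

set_option autoImplicit false

open MeasureTheory ProbabilityTheory Filter Topology
open scoped ENNReal

/-!
# Probabilistic cellular automata on arbitrary networks of sites

The sites form an arbitrary set `V`, the alphabet is an arbitrary measurable space and the local
rules may depend on the site; the only assumptions are that every site looks at finitely many
sites and is looked at by finitely many sites.
-/

namespace Pool.Agent.Y203.PCA

/-- A probabilistic cellular automaton on an arbitrary set `V` of sites, with an arbitrary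
alphabet `S`.  Given the configuration `x`, the new symbol at `v` has law `law v x`, which depends
(measurably) only on the symbols of `x` at the finitely many sites of `nb v`; each site `w` is
used by finitely many sites `v`. -/
structure Net (V S : Type) [MeasurableSpace S] where
  nb : V → Finset V
  law : V → (V → S) → Measure S
  prob : ∀ v x, IsProbabilityMeasure (law v x)
  meas : ∀ v, Measurable[cylinderEvents (X := fun _ : V => S) (nb v : Set V)] (law v)
  fin : ∀ w, {v | w ∈ nb v}.Finite

variable {V S : Type} [MeasurableSpace S]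

/-- The σ-algebra of the events which depend on the symbols at the sites of `A`. -/
abbrev ev (V S : Type) [MeasurableSpace S] (A : Set V) : MeasurableSpace (V → S) :=
  cylinderEvents (X := fun _ : V => S) A

theorem ev_le' (A : Set V) : ev V S A ≤ MeasurableSpace.pi := cylinderEvents_le_pi

namespace Net

variable (Φ : Net V S)

instance (v : V) (x : V → S) : IsProbabilityMeasure (Φ.law v x) := Φ.prob v x

/-- The transition kernel: given `x` the new symbols at the sites are independent. -/
noncomputable def step (x : V → S) : Measure (V → S) :=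
  Measure.infinitePi (fun v : V => Φ.law v x)

/-- The action on measures, `(μΦ)(E) = ∫ Φ(x,E) μ(dx)`. -/
noncomputable def evolve (μ : Measure (V → S)) : Measure (V → S) := μ.bind Φ.step

/-- The action on functions. -/
noncomputable def op (f : (V → S) → ℝ≥0∞) : (V → S) → ℝ≥0∞ := fun x => ∫⁻ y, f y ∂(Φ.step x)

/-- The sites at which the sites of `A` look. -/
def reach (A : Set V) : Set V := {w | ∃ v ∈ A, w ∈ Φ.nb v}

/-- The sites which look at sites of `C`. -/
def infl (C : Set V) : Set V := {v | ∃ w ∈ C, w ∈ Φ.nb v}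

instance (x : V → S) : IsProbabilityMeasure (Φ.step x) := by
  unfold step; infer_instance

theorem ev_eq (A : Set V) : ev V S A = MeasurableSpace.generateFrom
    (piiUnionInter (fun v : V => {s | MeasurableSet[(inferInstance : MeasurableSpace S).comap
      (fun x : V → S => x v)] s}) A) :=
  (generateFrom_piiUnionInter_measurableSet _ A).symm

theorem ev_le (A : Set V) : ev V S A ≤ MeasurableSpace.pi := cylinderEvents_le_pi

theorem isPi (A : Set V) : IsPiSystem (piiUnionInter (fun v : V =>
    {s | MeasurableSet[(inferInstance : MeasurableSpace S).comap (fun x : V → S => x v)] s}) A) :=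
  isPiSystem_piiUnionInter _ (fun v => @MeasurableSpace.isPiSystem_measurableSet _
    ((inferInstance : MeasurableSpace S).comap (fun x : V → S => x v))) A

/-- The probability of a rectangle. -/
theorem step_rect {A : Set V} {E : Set (V → S)} (hE : E ∈ piiUnionInter (fun v : V =>
    {s | MeasurableSet[(inferInstance : MeasurableSpace S).comap (fun x : V → S => x v)] s}) A) :
    Measurable[ev V S (Φ.reach A)] (fun x => Φ.step x E) := by
  obtain ⟨t, htA, f, hf, rfl⟩ := hE
  have hf' : ∀ v, ∃ g : Set S, MeasurableSet g ∧ (v ∈ t → f v = (fun x : V → S => x v) ⁻¹' g) := by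
    intro v
    by_cases hv : v ∈ t
    · obtain ⟨g, hg, hgf⟩ := hf v hv
      exact ⟨g, hg, fun _ => hgf.symm⟩
    · exact ⟨∅, MeasurableSet.empty, fun h => absurd h hv⟩
  choose g hg hgf using hf'
  have e : (⋂ v ∈ t, f v) = Set.pi (t : Set V) g := by
    ext x
    simp only [Set.mem_iInter, Set.mem_pi, Finset.mem_coe]
    refine forall_congr' fun v => forall_congr' fun hv => ?_
    rw [hgf v hv]
    rfl
  have e2 : ∀ x, Φ.step x (⋂ v ∈ t, f v) = ∏ v ∈ t, Φ.law v x (g v) := by
    intro x
    rw [e]
    exact Measure.infinitePi_pi (fun v : V => Φ.law v x) (fun v _ => hg v)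
  simp only [e2]
  refine Finset.measurable_prod _ fun v hv => ?_
  have h1 : Measurable[ev V S (Φ.reach A)] (Φ.law v) := by
    refine (Φ.meas v).mono (cylinderEvents_mono ?_) le_rfl
    intro w hw
    exact ⟨v, htA hv, hw⟩
  exact (Measure.measurable_coe (hg v)).comp h1

theorem measurable_trim (A : Set V) :
    @Measurable _ (@Measure (V → S) (ev V S A)) (ev V S (Φ.reach A)) _
      (fun x => (Φ.step x).trim (ev_le A)) := by
  let m1 : MeasurableSpace (V → S) := ev V S (Φ.reach A)
  refine @Measurable.measure_of_isPiSystem_of_isProbabilityMeasure _ _ m1 (ev V S A) _ ?_ _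
    (ev_eq A) (isPi A) ?_
  · intro x
    exact ⟨by rw [trim_measurableSet_eq _ (@MeasurableSet.univ _ (ev V S A))]; exact measure_univ⟩
  · intro E hE
    have hEm : MeasurableSet[ev V S A] E := by
      rw [ev_eq A]
      exact MeasurableSpace.measurableSet_generateFrom hE
    have : ∀ x, (Φ.step x).trim (ev_le A) E = Φ.step x E := fun x =>
      trim_measurableSet_eq _ hEm
    simp only [this]
    exact Φ.step_rect hE

theorem op_meas {A : Set V} {f : (V → S) → ℝ≥0∞} (hf : Measurable[ev V S A] f) :
    Measurable[ev V S (Φ.reach A)] (Φ.op f) := by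
  have h1 := Φ.measurable_trim A
  have h2 : Φ.op f = (fun μ : @Measure (V → S) (ev V S A) => @lintegral _ (ev V S A) μ f) ∘
      (fun x => (Φ.step x).trim (ev_le A)) := by
    funext x
    simp only [Function.comp_apply]
    rw [lintegral_trim (ev_le A) hf]
    rfl
  rw [h2]
  exact (@Measure.measurable_lintegral _ (ev V S A) f hf).comp h1

theorem measurable_step : Measurable Φ.step := by
  refine Measurable.measure_of_isPiSystem_of_isProbabilityMeasure (μ := Φ.step)
    (S := piiUnionInter (fun v : V => {s | MeasurableSet[(inferInstance : MeasurableSpace S).comap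
      (fun x : V → S => x v)] s}) Set.univ) ?_ (isPi Set.univ) ?_
  · have := ev_eq (V := V) (S := S) Set.univ
    rw [← this]
    exact cylinderEvents_univ.symm
  · intro E hE
    exact (Φ.step_rect hE).mono (ev_le _) le_rfl

theorem op_mul {A B : Set V} (hAB : Disjoint A B) {f g : (V → S) → ℝ≥0∞}
    (hf : Measurable[ev V S A] f) (hg : Measurable[ev V S B] g) :
    Φ.op (fun x => f x * g x) = fun x => Φ.op f x * Φ.op g x := by
  funext x
  have hind : iIndepFun (fun (v : V) (ω : V → S) => ω v) (Φ.step x) :=
    iIndepFun_infinitePi (P := fun v : V => Φ.law v x) (X := fun _ s => s)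
      (fun _ => measurable_id)
  have h1 : iIndep (fun v : V => (inferInstance : MeasurableSpace S).comap
      (fun ω : V → S => ω v)) (Φ.step x) := hind
  have h2 := indep_iSup_of_disjoint (fun v => (measurable_pi_apply v).comap_le) h1 hAB
  exact lintegral_mul_eq_lintegral_mul_lintegral_of_independent_measurableSpace (ev_le A)
    (ev_le B) h2 hf hg

theorem op_le_one {f : (V → S) → ℝ≥0∞} (hf : ∀ x, f x ≤ 1) (x : V → S) : Φ.op f x ≤ 1 := by
  unfold op
  calc ∫⁻ y, f y ∂(Φ.step x) ≤ ∫⁻ _, 1 ∂(Φ.step x) := lintegral_mono hf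
    _ = 1 := by simp

theorem iterate_le_one {f : (V → S) → ℝ≥0∞} (hf : ∀ x, f x ≤ 1) (t : ℕ) (x : V → S) :
    Φ.op^[t] f x ≤ 1 := by
  induction t generalizing f with
  | zero => exact hf x
  | succ t ih => exact ih (Φ.op_le_one hf)

theorem iterate_meas (t : ℕ) {A : Set V} {f : (V → S) → ℝ≥0∞} (hf : Measurable[ev V S A] f) :
    Measurable[ev V S (Φ.reach^[t] A)] (Φ.op^[t] f) := by
  induction t generalizing f A with
  | zero => exact hf
  | succ t ih => exact ih (Φ.op_meas hf)

theorem iterate_meas' (t : ℕ) {f : (V → S) → ℝ≥0∞} (hf : Measurable f) :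
    Measurable (Φ.op^[t] f) := by
  have h : Measurable[ev V S Set.univ] f := by
    rw [show ev V S Set.univ = MeasurableSpace.pi from cylinderEvents_univ]; exact hf
  exact (Φ.iterate_meas t h).mono (ev_le _) le_rfl

theorem iterate_mul (t : ℕ) {A B : Set V} {f g : (V → S) → ℝ≥0∞}
    (hf : Measurable[ev V S A] f) (hg : Measurable[ev V S B] g)
    (hAB : ∀ s < t, Disjoint (Φ.reach^[s] A) (Φ.reach^[s] B)) :
    Φ.op^[t] (fun x => f x * g x) = fun x => Φ.op^[t] f x * Φ.op^[t] g x := by
  induction t generalizing f g A B with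
  | zero => rfl
  | succ t ih =>
    simp only [Function.iterate_succ, Function.comp_apply]
    rw [Φ.op_mul (hAB 0 (Nat.succ_pos _)) hf hg]
    apply ih (Φ.op_meas hf) (Φ.op_meas hg)
    intro s hs
    exact hAB (s + 1) (by omega)

/-! ### The sites that may interact with `A` -/

theorem reach_iterate (s : ℕ) (B C : Set V) {x : V} (hx : x ∈ Φ.reach^[s] B) (hC : x ∈ C) :
    ∃ v ∈ B, v ∈ Φ.infl^[s] C := by
  induction s generalizing B with
  | zero => exact ⟨x, hx, hC⟩
  | succ s ih =>
    obtain ⟨w, ⟨v, hv, hwv⟩, hw⟩ := ih (Φ.reach B) hx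
    refine ⟨v, hv, ?_⟩
    rw [Function.iterate_succ_apply']
    exact ⟨w, hw, hwv⟩

theorem infl_finite {C : Set V} (hC : C.Finite) : (Φ.infl C).Finite := by
  have : Φ.infl C = ⋃ w ∈ C, {v | w ∈ Φ.nb v} := by
    ext v; simp [infl]
  rw [this]
  exact hC.biUnion fun w _ => Φ.fin w

theorem reach_finite {C : Set V} (hC : C.Finite) : (Φ.reach C).Finite := by
  have : Φ.reach C = ⋃ v ∈ C, (Φ.nb v : Set V) := by
    ext w; simp [reach]
  rw [this]
  exact hC.biUnion fun v _ => Finset.finite_toSet _

theorem infl_iterate_finite (s : ℕ) {C : Set V} (hC : C.Finite) : (Φ.infl^[s] C).Finite := by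
  induction s with
  | zero => exact hC
  | succ s ih => rw [Function.iterate_succ_apply']; exact Φ.infl_finite ih

theorem reach_iterate_finite (s : ℕ) {C : Set V} (hC : C.Finite) : (Φ.reach^[s] C).Finite := by
  induction s with
  | zero => exact hC
  | succ s ih => rw [Function.iterate_succ_apply']; exact Φ.reach_finite ih

/-- The sites whose past up to time `t` meets the past of `A`. -/
def zone (A : Set V) (t : ℕ) : Set V := ⋃ s ∈ Set.Iio t, Φ.infl^[s] (Φ.reach^[s] A)

theorem zone_finite {A : Set V} (hA : A.Finite) (t : ℕ) : (Φ.zone A t).Finite :=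
  (Set.finite_Iio t).biUnion fun s _ => Φ.infl_iterate_finite s (Φ.reach_iterate_finite s hA)

theorem disjoint_of_zone {A B : Set V} {t : ℕ} (h : B ⊆ (Φ.zone A t)ᶜ) (s : ℕ) (hs : s < t) :
    Disjoint (Φ.reach^[s] A) (Φ.reach^[s] B) := by
  rw [Set.disjoint_left]
  intro x hA hB
  obtain ⟨v, hv, hv2⟩ := Φ.reach_iterate s B (Φ.reach^[s] A) hB hA
  exact h hv (Set.mem_iUnion₂.2 ⟨s, hs, hv2⟩)

/-! ### The action on measures -/

theorem lintegral_evolve (μ : Measure (V → S)) {f : (V → S) → ℝ≥0∞} (hf : Measurable f) :
    ∫⁻ x, f x ∂(Φ.evolve μ) = ∫⁻ x, Φ.op f x ∂μ :=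
  Measure.lintegral_bind Φ.measurable_step.aemeasurable hf.aemeasurable

theorem prob_evolve (μ : Measure (V → S)) [IsProbabilityMeasure μ] :
    IsProbabilityMeasure (Φ.evolve μ) := by
  constructor
  have := Φ.lintegral_evolve μ (f := fun _ => 1) measurable_const
  simpa [op] using this

theorem prob_iterate (μ : Measure (V → S)) [hμ : IsProbabilityMeasure μ] (t : ℕ) :
    IsProbabilityMeasure (Φ.evolve^[t] μ) := by
  induction t with
  | zero => exact hμ
  | succ t ih =>
    rw [Function.iterate_succ_apply']
    exact Φ.prob_evolve _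

theorem lintegral_iterate (μ : Measure (V → S)) (t : ℕ) {f : (V → S) → ℝ≥0∞}
    (hf : Measurable f) :
    ∫⁻ x, f x ∂(Φ.evolve^[t] μ) = ∫⁻ x, Φ.op^[t] f x ∂μ := by
  induction t generalizing f with
  | zero => rfl
  | succ t ih =>
    rw [Function.iterate_succ_apply', Φ.lintegral_evolve _ hf,
      ih (f := Φ.op f) (Φ.iterate_meas' 1 hf)]
    rfl

/-- The transition probability `Φ^t(x, E)`. -/
noncomputable def trans (t : ℕ) (x : V → S) (E : Set (V → S)) : ℝ :=
  ((Φ.evolve^[t] (Measure.dirac x)) E).toReal

theorem trans_eq (t : ℕ) (x : V → S) {E : Set (V → S)} (hE : MeasurableSet E) :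
    Φ.trans t x E = (Φ.op^[t] (E.indicator fun _ => 1) x).toReal := by
  unfold trans
  congr 1
  have h := Φ.lintegral_iterate (Measure.dirac x) t (f := E.indicator fun _ => 1)
    (measurable_const.indicator hE)
  rw [lintegral_indicator hE, lintegral_const, one_mul, Measure.restrict_apply MeasurableSet.univ,
    Set.univ_inter, lintegral_dirac' _ (Φ.iterate_meas' t (measurable_const.indicator hE))] at h
  exact h

theorem ind_le_one (E : Set (V → S)) (x : V → S) :
    E.indicator (fun _ => (1 : ℝ≥0∞)) x ≤ 1 := by
  unfold Set.indicator; split_ifs <;> simp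

theorem trans_nonneg (t : ℕ) (x : V → S) (E : Set (V → S)) : 0 ≤ Φ.trans t x E :=
  ENNReal.toReal_nonneg

theorem trans_le_one (t : ℕ) (x : V → S) (E : Set (V → S)) : Φ.trans t x E ≤ 1 := by
  have := Φ.prob_iterate (Measure.dirac x) t
  have h := ENNReal.toReal_mono ENNReal.one_ne_top
    (prob_le_one (μ := Φ.evolve^[t] (Measure.dirac x)) (s := E))
  simpa [trans] using h

theorem trans_measurable (t : ℕ) {E : Set (V → S)} (hE : MeasurableSet E) :
    Measurable (fun x => Φ.trans t x E) := by
  simp only [fun x => Φ.trans_eq t x hE]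
  exact (Φ.iterate_meas' t (measurable_const.indicator hE)).ennreal_toReal

variable {Φ} {π : Measure (V → S)}

theorem iterate_invariant (hinv : Φ.evolve π = π) (t : ℕ) : Φ.evolve^[t] π = π := by
  induction t with
  | zero => rfl
  | succ t ih => rw [Function.iterate_succ_apply', ih, hinv]

theorem measure_eq_integral [IsProbabilityMeasure π] (hinv : Φ.evolve π = π) (t : ℕ)
    {E : Set (V → S)} (hE : MeasurableSet E) : (π E).toReal = ∫ x, Φ.trans t x E ∂π := by
  have h := Φ.lintegral_iterate π t (f := E.indicator fun _ => 1) (measurable_const.indicator hE)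
  rw [iterate_invariant hinv, lintegral_indicator hE, lintegral_const, one_mul,
    Measure.restrict_apply MeasurableSet.univ, Set.univ_inter] at h
  rw [h, ← integral_toReal (Φ.iterate_meas' t (measurable_const.indicator hE)).aemeasurable
    (Eventually.of_forall fun x =>
      (Φ.iterate_le_one (ind_le_one E) t x).trans_lt ENNReal.one_lt_top)]
  simp only [fun x => Φ.trans_eq t x hE]

theorem measurable_ind {m : MeasurableSpace (V → S)} {E : Set (V → S)} (hE : MeasurableSet[m] E) :
    Measurable[m] (E.indicator fun _ => (1 : ℝ≥0∞)) :=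
  measurable_const.indicator hE

/-- The product formula. -/
theorem measure_inter [IsProbabilityMeasure π] (hinv : Φ.evolve π = π) (t : ℕ) {A B : Set V}
    (hB : ∀ s < t, Disjoint (Φ.reach^[s] A) (Φ.reach^[s] B)) {E F : Set (V → S)} (hE : MeasurableSet[ev V S A] E)
    (hF : MeasurableSet[ev V S B] F) :
    (π (E ∩ F)).toReal = ∫ x, Φ.trans t x E * Φ.trans t x F ∂π := by
  have hE' : MeasurableSet E := ev_le A _ hE
  have hF' : MeasurableSet F := ev_le B _ hF
  rw [measure_eq_integral hinv t (hE'.inter hF')]
  have key : Φ.op^[t] ((E ∩ F).indicator fun _ => 1) =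
      fun x => Φ.op^[t] (E.indicator fun _ => 1) x * Φ.op^[t] (F.indicator fun _ => 1) x := by
    have iE : Measurable[ev V S A] (E.indicator fun _ => (1 : ℝ≥0∞)) := measurable_ind hE
    have iF : Measurable[ev V S B] (F.indicator fun _ => (1 : ℝ≥0∞)) := measurable_ind hF
    rw [← Φ.iterate_mul t iE iF hB]
    congr 1
    funext x
    by_cases h1 : x ∈ E <;> by_cases h2 : x ∈ F <;> simp [h1, h2]
  apply integral_congr_ae
  filter_upwards with x
  rw [Φ.trans_eq t x (hE'.inter hF'), Φ.trans_eq t x hE', Φ.trans_eq t x hF', key,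
    ENNReal.toReal_mul]

/-- **Uniform decorrelation.** For an invariant law `π` and every time `t`, an event on the sites
of `A` and *any* event on sites whose past does not meet the past of `A` before time `t` have a
covariance at most `∫ |Φ^t(x,E) - π(E)| π(dx)`. -/
theorem decorrelation [IsProbabilityMeasure π] (hinv : Φ.evolve π = π) (t : ℕ) {A B : Set V}
    (hB : ∀ s < t, Disjoint (Φ.reach^[s] A) (Φ.reach^[s] B)) {E F : Set (V → S)} (hE : MeasurableSet[ev V S A] E)
    (hF : MeasurableSet[ev V S B] F) :
    |(π (E ∩ F)).toReal - (π E).toReal * (π F).toReal| ≤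
      ∫ x, |Φ.trans t x E - (π E).toReal| ∂π := by
  have hE' : MeasurableSet E := ev_le A _ hE
  have hF' : MeasurableSet F := ev_le B _ hF
  have mE := Φ.trans_measurable t hE'
  have mF := Φ.trans_measurable t hF'
  have bnd : ∀ x, |Φ.trans t x E - (π E).toReal| ≤ 1 := by
    intro x
    have h1 := Φ.trans_nonneg t x E
    have h2 := Φ.trans_le_one t x E
    have h3 : 0 ≤ (π E).toReal := ENNReal.toReal_nonneg
    have h4 : (π E).toReal ≤ 1 := by
      have := ENNReal.toReal_mono ENNReal.one_ne_top (prob_le_one (μ := π) (s := E))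
      simpa using this
    rw [abs_le]
    constructor <;> linarith
  have i1 : Integrable (fun x => Φ.trans t x E * Φ.trans t x F) π := by
    apply Integrable.of_bound (C := 1) (mE.mul mF).aestronglyMeasurable
    filter_upwards with x
    show ‖Φ.trans t x E * Φ.trans t x F‖ ≤ 1
    rw [Real.norm_eq_abs, abs_of_nonneg (mul_nonneg (Φ.trans_nonneg t x E) (Φ.trans_nonneg t x F))]
    exact mul_le_one₀ (Φ.trans_le_one t x E) (Φ.trans_nonneg t x F) (Φ.trans_le_one t x F)
  have i2 : Integrable (fun x => (π E).toReal * Φ.trans t x F) π := by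
    apply Integrable.const_mul
    apply Integrable.of_bound (C := 1) mF.aestronglyMeasurable
    filter_upwards with x
    rw [Real.norm_eq_abs, abs_of_nonneg (Φ.trans_nonneg t x F)]
    exact Φ.trans_le_one t x F
  have i3 : Integrable (fun x => |Φ.trans t x E - (π E).toReal|) π := by
    apply Integrable.of_bound (C := 1) ((mE.sub_const _).abs).aestronglyMeasurable
    filter_upwards with x
    rw [Real.norm_eq_abs, abs_abs]
    exact bnd x
  have e : (π (E ∩ F)).toReal - (π E).toReal * (π F).toReal =
      ∫ x, (Φ.trans t x E * Φ.trans t x F - (π E).toReal * Φ.trans t x F) ∂π := by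
    rw [integral_sub i1 i2, integral_const_mul, ← measure_eq_integral hinv t hF',
      measure_inter hinv t hB hE hF]
  rw [e]
  refine (abs_integral_le_integral_abs).trans ?_
  apply integral_mono_of_nonneg
  · filter_upwards with x
    exact abs_nonneg _
  · exact i3
  · filter_upwards with x
    rw [← sub_mul, abs_mul, abs_of_nonneg (Φ.trans_nonneg t x F)]
    exact mul_le_of_le_one_right (abs_nonneg _) (Φ.trans_le_one t x F)

/-- The invariant law `π` is *exact in time along local events*: the transition probabilities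
of every local event come close, in the mean with respect to `π`, to its probability. -/
def Settles (Φ : Net V S) (π : Measure (V → S)) : Prop :=
  ∀ A : Set V, A.Finite → ∀ E : Set (V → S), MeasurableSet[ev V S A] E → ∀ ε : ℝ, 0 < ε →
    ∃ t : ℕ, ∫ x, |Φ.trans t x E - (π E).toReal| ∂π < ε

theorem abs_trans_sub_le [IsProbabilityMeasure π] (t : ℕ) (x : V → S) (E : Set (V → S)) :
    |Φ.trans t x E - (π E).toReal| ≤ 1 := by
  have h1 := Φ.trans_nonneg t x E
  have h2 := Φ.trans_le_one t x E
  have h3 : 0 ≤ (π E).toReal := ENNReal.toReal_nonneg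
  have h4 : (π E).toReal ≤ 1 := by
    have := ENNReal.toReal_mono ENNReal.one_ne_top (prob_le_one (μ := π) (s := E))
    simpa using this
  rw [abs_le]
  constructor <;> linarith

/-- An invariant law which attracts almost every configuration with respect to itself settles. -/
theorem settles_of_ae [IsProbabilityMeasure π]
    (h : ∀ A : Set V, A.Finite → ∀ E : Set (V → S), MeasurableSet[ev V S A] E →
      ∀ᵐ x ∂π, Tendsto (fun t => Φ.trans t x E) atTop (𝓝 (π E).toReal)) : Settles Φ π := by
  intro A hA E hE ε hε
  have hEm : MeasurableSet E := ev_le A _ hE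
  have h1 : Tendsto (fun t => ∫ x, |Φ.trans t x E - (π E).toReal| ∂π) atTop
      (𝓝 (∫ _, (0 : ℝ) ∂π)) := by
    apply tendsto_integral_of_dominated_convergence (fun _ => (1 : ℝ))
    · intro t
      exact (((Φ.trans_measurable t hEm).sub_const _).abs).aestronglyMeasurable
    · exact integrable_const _
    · intro t
      filter_upwards with x
      rw [Real.norm_eq_abs, abs_abs]
      exact abs_trans_sub_le t x E
    · filter_upwards [h A hA E hE] with x hx
      have := (hx.sub_const (π E).toReal).abs
      simpa using this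
  rw [integral_zero] at h1
  exact (h1.eventually_lt_const hε).exists

theorem uniform [IsProbabilityMeasure π] (hinv : Φ.evolve π = π) (hset : Settles Φ π)
    {A : Set V} (hA : A.Finite) {E : Set (V → S)} (hE : MeasurableSet[ev V S A] E)
    {ε : ℝ} (hε : 0 < ε) : ∃ Λ : Set V, Λ.Finite ∧ ∀ F : Set (V → S),
      MeasurableSet[ev V S Λᶜ] F → |(π (E ∩ F)).toReal - (π E).toReal * (π F).toReal| < ε := by
  obtain ⟨t, ht⟩ := hset A hA E hE ε hε
  exact ⟨Φ.zone A t, Φ.zone_finite hA t, fun F hF =>
    (decorrelation hinv t (Φ.disjoint_of_zone subset_rfl) hE hF).trans_lt ht⟩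

/-- **Tail triviality.** -/
theorem tail_trivial [IsProbabilityMeasure π] (hinv : Φ.evolve π = π) (hset : Settles Φ π)
    {F : Set (V → S)} (hF : ∀ Λ : Set V, Λ.Finite → MeasurableSet[ev V S Λᶜ] F) :
    π F = 0 ∨ π F = 1 := by
  have hFm : MeasurableSet F := ev_le _ _ (hF ∅ Set.finite_empty)
  -- independence of the local events
  have h1 : ∀ A : Set V, A.Finite → ∀ E : Set (V → S), MeasurableSet[ev V S A] E →
      π (E ∩ F) = π E * π F := by
    intro A hA E hE
    have h2 : (π (E ∩ F)).toReal = (π E).toReal * (π F).toReal := by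
      by_contra hne
      have hpos : 0 < |(π (E ∩ F)).toReal - (π E).toReal * (π F).toReal| :=
        abs_pos.2 (sub_ne_zero.2 hne)
      obtain ⟨Λ, hΛ, h3⟩ := uniform hinv hset hA hE hpos
      exact lt_irrefl _ (h3 F (hF Λ hΛ))
    rw [← ENNReal.toReal_mul] at h2
    exact (ENNReal.toReal_eq_toReal_iff' (measure_ne_top _ _)
      (ENNReal.mul_ne_top (measure_ne_top _ _) (measure_ne_top _ _))).1 h2
  have h2 : ∀ E : Set (V → S), MeasurableSet E → π (E ∩ F) = π E * π F := by
    intro E hE
    have hgen : (MeasurableSpace.pi : MeasurableSpace (V → S)) = MeasurableSpace.generateFrom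
        (piiUnionInter (fun v : V => {s | MeasurableSet[(inferInstance : MeasurableSpace S).comap
          (fun x : V → S => x v)] s}) Set.univ) := by
      rw [← ev_eq]; exact cylinderEvents_univ.symm
    induction E, hE using MeasurableSpace.induction_on_inter hgen (isPi Set.univ) with
    | empty => simp
    | basic E hE =>
      obtain ⟨t, -, f, hf, rfl⟩ := hE
      apply h1 (t : Set V) t.finite_toSet
      rw [ev_eq]
      exact MeasurableSpace.measurableSet_generateFrom ⟨t, subset_rfl, f, hf, rfl⟩
    | compl E hE ih =>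
      have e1 := measure_inter_add_sdiff (μ := π) F hE
      have e2 : π (Eᶜ ∩ F) = π F - π (E ∩ F) := by
        rw [Set.inter_comm E F, ← e1, ENNReal.add_sub_cancel_left (measure_ne_top _ _)]
        congr 1
        ext x; simp [and_comm]
      rw [e2, ih, prob_compl_eq_one_sub hE, ENNReal.sub_mul (fun _ _ => measure_ne_top _ _),
        one_mul]
    | iUnion f hdisj hfm ih =>
      rw [Set.iUnion_inter, measure_iUnion (fun i j hij => (hdisj hij).mono
        Set.inter_subset_left Set.inter_subset_left) (fun i => (hfm i).inter hFm),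
        measure_iUnion hdisj hfm, ← ENNReal.tsum_mul_right]
      exact tsum_congr ih
  have h3 := h2 F hFm
  rw [Set.inter_self] at h3
  by_cases h0 : π F = 0
  · exact Or.inl h0
  · right
    have h4 : π F * 1 = π F * π F := by rw [mul_one]; exact h3
    exact ((ENNReal.mul_right_inj h0 (measure_ne_top _ _)).1 h4).symm

end Net

end Pool.Agent.Y203.PCA
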